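import Pool.Agent.Q92.AR.Stm2
import Pool.Agent.Y772.HG.Sgn
import Pool.Agent.Y767.HC.Ext

/-!
# Project AR, job PRIM: every ray class character is induced by a primitive one
-/

set_option autoImplicit false
set_option linter.unusedSectionVars false

namespace Pool.Agent.Q264.AR

open NumberField Pool.Agent.Q92.AR

section

variable {K : Type} [Field K] [NumberField K]

/-- the monoid of the nonzero ideals prime to `𝔮` -/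
def Mn (𝔮 : Ideal (𝓞 K)) : Submonoid (Ideal (𝓞 K)) where
  carrier := {𝔞 | 𝔞 ≠ ⊥ ∧ IsCoprime 𝔞 𝔮}
  mul_mem' ha hb := ⟨mul_ne_zero ha.1 hb.1, ha.2.mul_left hb.2⟩
  one_mem' := ⟨one_ne_zero, isCoprime_one_left⟩

lemma Mn_cancel (𝔮 : Ideal (𝓞 K)) : IsCancelMul (Mn 𝔮) where
  mul_left_cancel := fun x y z h => by
    apply Subtype.ext
    have h1 := congrArg Subtype.val h
    exact mul_left_cancel₀ x.2.1 h1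
  mul_right_cancel := fun x y z h => by
    apply Subtype.ext
    have h1 := congrArg Subtype.val h
    exact mul_right_cancel₀ x.2.1 h1

lemma cop_mono {𝔞 𝔮 𝔣 : Ideal (𝓞 K)} (h : 𝔮 ≤ 𝔣) (h1 : IsCoprime 𝔞 𝔮) : IsCoprime 𝔞 𝔣 := by
  rw [Ideal.isCoprime_iff_sup_eq] at h1 ⊢
  exact top_le_iff.mp (h1 ▸ sup_le_sup_left h 𝔞)

lemma Mn_mono {𝔮 𝔣 : Ideal (𝓞 K)} (h : 𝔮 ≤ 𝔣) : Mn 𝔮 ≤ Mn 𝔣 := fun _ h1 =>
  ⟨h1.1, cop_mono h h1.2⟩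

lemma cop_one {𝔮 : Ideal (𝓞 K)} {x : 𝓞 K} (h : x - 1 ∈ 𝔮) : IsCoprime (Ideal.span {x}) 𝔮 := by
  rw [Ideal.isCoprime_iff_exists]
  exact ⟨x, Ideal.mem_span_singleton_self x, 1 - x, by rw [← neg_sub]; exact neg_mem h, by ring⟩

lemma coe_mul' (a b : 𝓞 K) : ((a * b : 𝓞 K) : K) = (a : K) * (b : K) :=
  map_mul (algebraMap (𝓞 K) K) a b

lemma coe_add' (a b : 𝓞 K) : ((a + b : 𝓞 K) : K) = (a : K) + (b : K) :=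
  map_add (algebraMap (𝓞 K) K) a b

lemma coe_nat' (n : ℕ) : ((n : 𝓞 K) : K) = (n : K) := map_natCast (algebraMap (𝓞 K) K) n

lemma coe_one' : ((1 : 𝓞 K) : K) = 1 := map_one (algebraMap (𝓞 K) K)

lemma pos_mul {x y : K} (hx : Pos x) (hy : Pos y) : Pos (x * y) := fun φ => by
  rw [map_mul]; exact mul_pos (hx φ) (hy φ)

lemma pos_one : Pos (1 : K) := fun φ => by rw [map_one]; exact one_pos

/-- the totally positive elements `≡ 1 mod 𝔣` -/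
def T1 (𝔣 : Ideal (𝓞 K)) : Submonoid (𝓞 K) where
  carrier := {x | x ≠ 0 ∧ x - 1 ∈ 𝔣 ∧ Pos (x : K)}
  mul_mem' {x y} hx hy := by
    refine ⟨mul_ne_zero hx.1 hy.1, ?_, ?_⟩
    · have : x * y - 1 = (x - 1) * y + (y - 1) := by ring
      rw [this]
      exact add_mem (Ideal.mul_mem_right _ _ hx.2.1) hy.2.1
    · rw [coe_mul']
      exact pos_mul hx.2.2 hy.2.2
  one_mem' := by
    refine ⟨one_ne_zero, ?_, ?_⟩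
    · rw [sub_self]; exact zero_mem _
    · rw [coe_one']; exact pos_one

/-- the principal ideals generated by elements of `T1` -/
def pi1 (𝔣 : Ideal (𝓞 K)) : T1 𝔣 →* Mn 𝔣 where
  toFun x := ⟨Ideal.span {(x : 𝓞 K)}, by
    rw [Ne, Ideal.span_singleton_eq_bot]; exact x.2.1, cop_one x.2.2.1⟩
  map_one' := by
    apply Subtype.ext
    change Ideal.span {(1 : 𝓞 K)} = 1
    rw [Ideal.span_singleton_one, Ideal.one_eq_top]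
  map_mul' x y := by
    apply Subtype.ext
    change Ideal.span {(x : 𝓞 K) * (y : 𝓞 K)} = _
    rw [← Ideal.span_singleton_mul_span_singleton]
    rfl

/-- the map `(𝔞, x) ↦ 𝔞 (x)` -/
def pi2 {𝔮 𝔣 : Ideal (𝓞 K)} (h : 𝔮 ≤ 𝔣) : (Mn 𝔮 × T1 𝔣) →* Mn 𝔣 :=
  (Submonoid.inclusion (Mn_mono h)).coprod (pi1 𝔣)

lemma pi2_coe {𝔮 𝔣 : Ideal (𝓞 K)} (h : 𝔮 ≤ 𝔣) (𝔞 : Mn 𝔮) (x : T1 𝔣) :
    ((pi2 h (𝔞, x) : Mn 𝔣) : Ideal (𝓞 K)) = (𝔞 : Ideal (𝓞 K)) * Ideal.span {(x : 𝓞 K)} := by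
  unfold pi2
  rw [MonoidHom.coprod_apply, Submonoid.coe_mul, Submonoid.coe_inclusion]
  rfl

/-- adding a large multiple of an integer makes an element totally positive and nonzero -/
lemma exists_pos (x : 𝓞 K) {c : ℕ} (hc : 0 < c) :
    ∃ k : ℕ, Pos ((x + (k : 𝓞 K) * (c : 𝓞 K) : 𝓞 K) : K) ∧ x + (k : 𝓞 K) * (c : 𝓞 K) ≠ 0 := by
  classical
  have hfin : Finite (K →+* ℝ) := by
    refine Finite.of_injective (fun σ : K →+* ℝ => (Complex.ofRealHom.comp σ : K →+* ℂ)) ?_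
    intro σ τ h
    ext y
    have h1 := congrArg (fun f : K →+* ℂ => f y) h
    exact Complex.ofReal_injective h1
  have hft : Fintype (K →+* ℝ) := Fintype.ofFinite _
  obtain ⟨k, hk⟩ := exists_nat_gt (∑ σ : K →+* ℝ, |σ (x : K)|)
  have hpos : ∀ l : ℕ, k ≤ l → Pos ((x + (l : 𝓞 K) * (c : 𝓞 K) : 𝓞 K) : K) := by
    intro l hl σ
    have h1 : |σ (x : K)| ≤ ∑ σ : K →+* ℝ, |σ (x : K)| :=
      Finset.single_le_sum (f := fun σ : K →+* ℝ => |σ (x : K)|)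
        (fun _ _ => abs_nonneg _) (Finset.mem_univ σ)
    rw [coe_add', coe_mul', coe_nat', coe_nat', map_add, map_mul, map_natCast, map_natCast]
    have h2 := neg_abs_le (σ (x : K))
    have h3 : (1 : ℝ) ≤ c := by exact_mod_cast hc
    have h4 : (k : ℝ) ≤ l := by exact_mod_cast hl
    have h5 : (0 : ℝ) ≤ l := Nat.cast_nonneg l
    nlinarith
  by_cases h0 : x + (k : 𝓞 K) * (c : 𝓞 K) = 0
  · refine ⟨k + 1, hpos _ (Nat.le_succ k), ?_⟩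
    intro h1
    have h2 : (c : 𝓞 K) = 0 := by
      push_cast at h1
      linear_combination h1 - h0
    exact hc.ne' (by exact_mod_cast h2)
  · exact ⟨k, hpos _ le_rfl, h0⟩

lemma pos_shift {𝔟 𝔮 : Ideal (𝓞 K)} {x z : 𝓞 K} (hx : x ∈ 𝔟) (h1 : x - 1 ∈ 𝔮)
    (hz1 : z ∈ 𝔟) (hz2 : z ∈ 𝔮) : x + z ∈ 𝔟 ∧ x + z - 1 ∈ 𝔮 := by
  refine ⟨add_mem hx hz1, ?_⟩
  have : x + z - 1 = (x - 1) + z := by ring
  rw [this]
  exact add_mem h1 hz2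

lemma exists_mem_pos {𝔟 𝔮 : Ideal (𝓞 K)} (hq : 𝔮 ≠ ⊥) (hb : 𝔟 ≠ ⊥) (h : IsCoprime 𝔟 𝔮) :
    ∃ y : 𝓞 K, y ≠ 0 ∧ y ∈ 𝔟 ∧ y - 1 ∈ 𝔮 ∧ Pos (y : K) := by
  obtain ⟨x, hx, b, hb1, hab⟩ := Ideal.isCoprime_iff_exists.mp h
  have h1 : x - 1 ∈ 𝔮 := by
    have : x - 1 = -b := by rw [← hab]; ring
    rw [this]; exact neg_mem hb1
  have hne : 𝔟 * 𝔮 ≠ ⊥ := mul_ne_zero hb hq
  obtain ⟨c, hc0, hcb, hcq⟩ : ∃ c : ℕ, 0 < c ∧ (c : 𝓞 K) ∈ 𝔟 ∧ (c : 𝓞 K) ∈ 𝔮 := by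
    refine ⟨Ideal.absNorm (𝔟 * 𝔮), Nat.pos_of_ne_zero (by rwa [Ne, Ideal.absNorm_eq_zero_iff]),
      ?_, ?_⟩
    · exact (show 𝔟 * 𝔮 ≤ 𝔟 from Ideal.mul_le_left) (Ideal.absNorm_mem _)
    · exact (show 𝔟 * 𝔮 ≤ 𝔮 from Ideal.mul_le_right) (Ideal.absNorm_mem _)
  obtain ⟨k, hk, hk0⟩ := exists_pos x hc0
  obtain ⟨z, hz⟩ : ∃ z : 𝓞 K, z = (k : 𝓞 K) * (c : 𝓞 K) := ⟨_, rfl⟩
  rw [← hz] at hk hk0
  have hz1 : z ∈ 𝔟 := by rw [hz]; exact Ideal.mul_mem_left _ _ hcb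
  have hz2 : z ∈ 𝔮 := by rw [hz]; exact Ideal.mul_mem_left _ _ hcq
  obtain ⟨h3, h4⟩ := pos_shift hx h1 hz1 hz2
  exact ⟨x + z, hk0, h3, h4, hk⟩

lemma exists_mem_one {𝔟 𝔮 : Ideal (𝓞 K)} (hq : 𝔮 ≠ ⊥) (hb : 𝔟 ≠ ⊥) (h : IsCoprime 𝔟 𝔮) :
    ∃ (x : 𝓞 K) (𝔠 : Ideal (𝓞 K)), x ≠ 0 ∧ x - 1 ∈ 𝔮 ∧ Pos (x : K) ∧ Ideal.span {x} = 𝔟 * 𝔠 ∧
      𝔠 ≠ ⊥ ∧ IsCoprime 𝔠 𝔮 := by
  obtain ⟨y, hy0, hyb, hyq, hyp⟩ := exists_mem_pos hq hb h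
  obtain ⟨𝔠, h𝔠⟩ := Ideal.dvd_iff_le.mpr ((Ideal.span_singleton_le_iff_mem 𝔟).mpr hyb)
  refine ⟨y, 𝔠, hy0, hyq, hyp, h𝔠, ?_, ?_⟩
  · rintro rfl
    rw [← Ideal.zero_eq_bot, mul_zero, Ideal.zero_eq_bot, Ideal.span_singleton_eq_bot] at h𝔠
    exact hy0 h𝔠
  · have h2 := cop_one hyq
    rw [h𝔠] at h2
    exact (IsCoprime.mul_left_iff.mp h2).2

/-- the key step: two ideals prime to `𝔮` in the same ray class modulo `𝔣` -/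
lemma key_step {𝔮 𝔣 : Ideal (𝓞 K)} (hq : 𝔮 ≠ ⊥) (hqf : 𝔮 ≤ 𝔣) {𝔞 𝔟 : Ideal (𝓞 K)}
    (h𝔟0 : 𝔟 ≠ ⊥)
    (h𝔞 : IsCoprime 𝔞 𝔮) (h𝔟 : IsCoprime 𝔟 𝔮) {x y : 𝓞 K} (hx0 : x ≠ 0) (hy0 : y ≠ 0)
    (hx : x - 1 ∈ 𝔣) (hy : y - 1 ∈ 𝔣) (hxp : Pos (x : K)) (hyp : Pos (y : K))
    (hab : 𝔞 * Ideal.span {x} = 𝔟 * Ideal.span {y}) :
    ∃ x' y' : 𝓞 K, x' ≠ 0 ∧ y' ≠ 0 ∧ x' - 1 ∈ 𝔮 ∧ IsCoprime (Ideal.span {y'}) 𝔮 ∧ y' - 1 ∈ 𝔣 ∧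
      Pos (x' : K) ∧ Pos (y' : K) ∧ 𝔞 * Ideal.span {x'} = 𝔟 * Ideal.span {y'} := by
  obtain ⟨x', 𝔠, hx10, hx1, hx1p, hx2, h𝔠0, hx3⟩ := exists_mem_one hq h𝔟0 h𝔟
  have h2 : 𝔞 * 𝔠 * Ideal.span {x} = Ideal.span {x' * y} := by
    rw [← Ideal.span_singleton_mul_span_singleton, hx2, mul_right_comm, hab]
    ring
  have h3 : x' * y ∈ Ideal.span {x} := by
    have h4 : Ideal.span {x' * y} ≤ Ideal.span {x} := by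
      rw [← h2]; exact Ideal.mul_le_right
    exact h4 (Ideal.mem_span_singleton_self _)
  obtain ⟨y', hy'⟩ := Ideal.mem_span_singleton'.mp h3
  have h5 : 𝔞 * 𝔠 = Ideal.span {y'} := by
    apply mul_right_cancel₀ (b := Ideal.span {x})
    · rw [Ne, Ideal.zero_eq_bot, Ideal.span_singleton_eq_bot]; exact hx0
    · rw [h2, Ideal.span_singleton_mul_span_singleton, hy']
  have hy'0 : y' ≠ 0 := by
    rintro rfl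
    rw [zero_mul] at hy'
    exact mul_ne_zero hx10 hy0 hy'.symm
  refine ⟨x', y', hx10, hy'0, hx1, ?_, ?_, hx1p, ?_, ?_⟩
  · rw [← h5]; exact IsCoprime.mul_left h𝔞 hx3
  · have e1 := (Ideal.Quotient.eq (I := 𝔣)).mpr hx
    have e2 := (Ideal.Quotient.eq (I := 𝔣)).mpr hy
    have e3 := (Ideal.Quotient.eq (I := 𝔣)).mpr (hqf hx1)
    rw [← Ideal.Quotient.eq]
    have e4 := congrArg (Ideal.Quotient.mk 𝔣) hy'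
    rw [map_mul, map_mul, e1, e2, e3, map_one, mul_one, mul_one] at e4
    rw [e4, map_one]
  · intro φ
    have h6 : φ ((y' : 𝓞 K) : K) * φ (x : K) = φ (x' : K) * φ (y : K) := by
      have h61 : ((y' : 𝓞 K) : K) * (x : K) = (x' : K) * (y : K) := by
        rw [← coe_mul', hy', coe_mul']
      rw [← map_mul, h61, map_mul]
    have h7 : 0 < φ ((y' : 𝓞 K) : K) * φ (x : K) := by
      rw [h6]; exact mul_pos (hx1p φ) (hyp φ)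
    exact pos_of_mul_pos_left h7 (hxp φ).le
  · rw [hx2, ← h5]; ring

/-- extension by zero -/
noncomputable def ofMn {𝔮 : Ideal (𝓞 K)} (F : Mn 𝔮 →* ℂˣ) : Ideal (𝓞 K) →*₀ ℂ := by
  classical
  exact {
    toFun := fun 𝔞 => if h : 𝔞 ∈ Mn 𝔮 then ((F ⟨𝔞, h⟩ : ℂˣ) : ℂ) else 0
    map_zero' := by
      rw [dif_neg]
      intro h
      exact h.1 Ideal.zero_eq_bot
    map_one' := by
      have h1 : (1 : Ideal (𝓞 K)) ∈ Mn 𝔮 := one_mem _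
      rw [dif_pos h1]
      have : (⟨1, h1⟩ : Mn 𝔮) = 1 := rfl
      rw [this, map_one, Units.val_one]
    map_mul' := fun 𝔞 𝔟 => by
      by_cases h0 : 𝔞 * 𝔟 = 0
      · have h00 : ¬ 𝔞 * 𝔟 ∈ Mn 𝔮 := fun h => h.1 (h0.trans Ideal.zero_eq_bot)
        rw [dif_neg h00]
        rcases mul_eq_zero.mp h0 with h | h
        · have : ¬ 𝔞 ∈ Mn 𝔮 := fun h' => h'.1 (h.trans Ideal.zero_eq_bot)
          rw [dif_neg this, zero_mul]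
        · have : ¬ 𝔟 ∈ Mn 𝔮 := fun h' => h'.1 (h.trans Ideal.zero_eq_bot)
          rw [dif_neg this, mul_zero]
      · by_cases h1 : 𝔞 ∈ Mn 𝔮
        · by_cases h2 : 𝔟 ∈ Mn 𝔮
          · rw [dif_pos h1, dif_pos h2, dif_pos (mul_mem h1 h2), ← Units.val_mul, ← map_mul]
            rfl
          · rw [dif_neg h2, dif_neg, mul_zero]
            intro h
            exact h2 ⟨fun h3 => h0 (by rw [h3, ← Ideal.zero_eq_bot, mul_zero]),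
              (IsCoprime.mul_left_iff.mp h.2).2⟩
        · rw [dif_neg h1, dif_neg, zero_mul]
          intro h
          exact h1 ⟨fun h3 => h0 (by rw [h3, ← Ideal.zero_eq_bot, zero_mul]),
            (IsCoprime.mul_left_iff.mp h.2).1⟩ }

open Classical in
lemma ofMn_pos {𝔮 : Ideal (𝓞 K)} (F : Mn 𝔮 →* ℂˣ) {𝔞 : Ideal (𝓞 K)}
    (h : 𝔞 ∈ Mn 𝔮) : ofMn F 𝔞 = ((F ⟨𝔞, h⟩ : ℂˣ) : ℂ) := by
  change (if h : 𝔞 ∈ Mn 𝔮 then ((F ⟨𝔞, h⟩ : ℂˣ) : ℂ) else 0) = _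
  rw [dif_pos h]

open Classical in
lemma ofMn_neg {𝔮 : Ideal (𝓞 K)} (F : Mn 𝔮 →* ℂˣ) {𝔞 : Ideal (𝓞 K)}
    (h : ¬ 𝔞 ∈ Mn 𝔮) : ofMn F 𝔞 = 0 := by
  change (if h : 𝔞 ∈ Mn 𝔮 then ((F ⟨𝔞, h⟩ : ℂˣ) : ℂ) else 0) = _
  rw [dif_neg h]

lemma absNorm_pos' {𝔮 : Ideal (𝓞 K)} (h : 𝔮 ≠ ⊥) : 0 < Ideal.absNorm 𝔮 :=
  Nat.pos_of_ne_zero (by rwa [Ne, Ideal.absNorm_eq_zero_iff])

lemma absNorm_lt {𝔤 𝔣 : Ideal (𝓞 K)} (h𝔣 : 𝔣 ≠ ⊥) (h : 𝔤 ∣ 𝔣) (hne : 𝔤 ≠ 𝔣) :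
    Ideal.absNorm 𝔤 < Ideal.absNorm 𝔣 := by
  obtain ⟨𝔥, rfl⟩ := h
  have h1 : 𝔤 ≠ ⊥ := by
    rintro rfl
    exact h𝔣 (by rw [← Ideal.zero_eq_bot, zero_mul])
  have h2 : 𝔥 ≠ ⊥ := by
    rintro rfl
    exact h𝔣 (by rw [← Ideal.zero_eq_bot, mul_zero])
  have h3 : Ideal.absNorm 𝔥 ≠ 1 := by
    rw [Ne, Ideal.absNorm_eq_one_iff]
    rintro rfl
    exact hne (by rw [← Ideal.one_eq_top, mul_one])
  have h4 := absNorm_pos' h1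
  have h5 := absNorm_pos' h2
  rw [map_mul]
  nlinarith [show 2 ≤ Ideal.absNorm 𝔥 by omega]

/-- the restriction of `ψ` to the ideals prime to `𝔮` -/
noncomputable def res {𝔮 : Ideal (𝓞 K)} (ψ : Ideal (𝓞 K) →*₀ ℂ)
    (h : ∀ x : Mn 𝔮, ψ (x : Ideal (𝓞 K)) ≠ 0) : Mn 𝔮 →* ℂˣ where
  toFun x := Units.mk0 (ψ (x : Ideal (𝓞 K))) (h x)
  map_one' := by
    ext
    change ψ (1 : Ideal (𝓞 K)) = 1
    exact map_one ψ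
  map_mul' x y := by
    ext
    change ψ ((x : Ideal (𝓞 K)) * (y : Ideal (𝓞 K))) = _
    rw [map_mul]
    rfl

/-- **JOB PRIM** -/
theorem prim : S_Prim := by
  intro K _ _ 𝔪 ψ hbot hsupp hray
  have hne : ∀ x : Mn 𝔪, ψ (x : Ideal (𝓞 K)) ≠ 0 := fun x => (hsupp _ x.2.1).2 x.2.2
  obtain ⟨P, hP⟩ : ∃ P : Set (Ideal (𝓞 K)), ∀ 𝔣, 𝔣 ∈ P ↔ (𝔣 ∣ 𝔪 ∧ ∀ (x : 𝓞 K), x ≠ 0 →
    IsCoprime (Ideal.span {x}) 𝔪 → x - 1 ∈ 𝔣 → Pos (x : K) → ψ (Ideal.span {x}) = 1) :=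
    ⟨{𝔣 | _}, fun 𝔣 => Iff.rfl⟩
  have hneP : P.Nonempty := ⟨𝔪, (hP 𝔪).mpr ⟨dvd_refl _, fun x hx _ h1 h2 => hray x hx h1 h2⟩⟩
  obtain ⟨𝔣, h𝔣, hmin⟩ := (measure (fun 𝔣 : Ideal (𝓞 K) => Ideal.absNorm 𝔣)).wf.has_min P hneP
  obtain ⟨hd, h1⟩ := (hP 𝔣).mp h𝔣
  have hqf := Ideal.dvd_iff_le.mp hd
  have hfb : 𝔣 ≠ ⊥ := by
    rintro rfl
    exact hbot (le_bot_iff.mp hqf)
  have := Mn_cancel 𝔣
  obtain ⟨F', hF'⟩ := Pool.Agent.Y767.ext_mon (pi2 hqf)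
    ((res ψ hne).comp (MonoidHom.fst (Mn 𝔪) (T1 𝔣))) (by
      rintro ⟨𝔞, x⟩ ⟨𝔟, y⟩ hab
      have hab' := congrArg Subtype.val hab
      rw [pi2_coe, pi2_coe] at hab'
      obtain ⟨x', y', hx0, hy0, hx1, hy1, hy2, hxp, hyp, hxy⟩ := key_step hbot hqf 𝔟.2.1
        𝔞.2.2 𝔟.2.2 x.2.1 y.2.1 x.2.2.1 y.2.2.1 x.2.2.2 y.2.2.2 hab'
      have h6 := h1 y' hy0 hy1 hy2 hyp
      have h7 := hray x' hx0 hx1 hxp
      have h9 := congrArg ψ hxy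
      rw [map_mul, map_mul, h6, h7, mul_one, mul_one] at h9
      ext
      exact h9)
  have hres : ∀ x : Mn 𝔪, ∀ h : (x : Ideal (𝓞 K)) ∈ Mn 𝔣,
      ((F' ⟨(x : Ideal (𝓞 K)), h⟩ : ℂˣ) : ℂ) = ψ (x : Ideal (𝓞 K)) := by
    intro x h
    have h2 := hF' (x, 1)
    have h3 : pi2 hqf (x, 1) = ⟨(x : Ideal (𝓞 K)), h⟩ := by
      apply Subtype.ext
      rw [pi2_coe, Submonoid.coe_one, Ideal.span_singleton_one, ← Ideal.one_eq_top, mul_one]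
    rw [h3] at h2
    rw [h2]
    rfl
  have hone : ∀ x : 𝓞 K, x ≠ 0 → x - 1 ∈ 𝔣 → Pos (x : K) →
      ofMn F' (Ideal.span {x}) = 1 := by
    intro x hx0 hx1 hxp
    have hm : Ideal.span {x} ∈ Mn 𝔣 :=
      ⟨by rw [Ne, Ideal.span_singleton_eq_bot]; exact hx0, cop_one hx1⟩
    rw [ofMn_pos F' hm]
    have h2 := hF' (1, ⟨x, hx0, hx1, hxp⟩)
    have h3 : pi2 hqf (1, ⟨x, hx0, hx1, hxp⟩) = ⟨Ideal.span {x}, hm⟩ := by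
      apply Subtype.ext
      rw [pi2_coe, Submonoid.coe_one, one_mul]
    rw [h3] at h2
    rw [h2]
    change ψ (1 : Ideal (𝓞 K)) = 1
    exact map_one ψ
  obtain ⟨e, he1, he2, he3⟩ := Pool.Agent.Y772.G.t_sig K 𝔣 (ofMn F') hfb
    (fun x hx0 hx1 hx2 => hone x hx0 hx1 hx2)
  refine ⟨𝔣, e, ofMn F', hd, hfb, he1, he2, ?_, ?_, ?_, ?_⟩
  · intro 𝔞 h0
    by_cases h : 𝔞 ∈ Mn 𝔣
    · rw [ofMn_pos F' h]
      exact ⟨fun _ => h.2, fun _ => Units.ne_zero _⟩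
    · rw [ofMn_neg F' h]
      exact ⟨fun h1 => absurd rfl h1, fun h1 => absurd ⟨h0, h1⟩ h⟩
  · intro x hx0 hx1
    rw [he3 x hx0 hx1]
    unfold Pool.Agent.Y773.G.sg
    refine Finset.prod_congr rfl fun w _ => ?_
    rcases w.isReal_or_isComplex with hw | hw
    · rw [Pool.Agent.Y772.G.rl_real hw]
      have h2 : ((InfinitePlace.embedding_of_isReal hw (x : K) : ℝ) : ℂ) = w.embedding (x : K) :=
        InfinitePlace.embedding_of_isReal_apply hw _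
      rw [← h2, Complex.ofReal_re]
    · rw [he2 w hw, pow_zero, pow_zero]
  · intro 𝔤 hg hgne
    have hnP : ¬ 𝔤 ∈ P := fun hP' => hmin 𝔤 hP' (absNorm_lt hfb hg hgne)
    rw [hP, not_and] at hnP
    have h2 := hnP (hg.trans hd)
    push Not at h2
    obtain ⟨x, hx0, hx, hx1, hxp, hx2⟩ := h2
    have hxf := cop_mono hqf hx
    have hm : Ideal.span {x} ∈ Mn 𝔣 :=
      ⟨by rw [Ne, Ideal.span_singleton_eq_bot]; exact hx0, hxf⟩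
    refine ⟨x, hx1, hxp, hxf, ?_⟩
    rw [ofMn_pos F' hm, hres ⟨Ideal.span {x}, hm.1, hx⟩ hm]
    exact hx2
  · intro 𝔞 ha
    by_cases h0 : 𝔞 = ⊥
    · rw [h0, ← Ideal.zero_eq_bot, map_zero, map_zero]
    · have hm : 𝔞 ∈ Mn 𝔣 := ⟨h0, cop_mono hqf ha⟩
      rw [ofMn_pos F' hm, hres ⟨𝔞, h0, ha⟩ hm]

end

end Pool.Agent.Q264.AR
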